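import Mathlib
import Pool.Agent.Lib.MP_d98eb9_al.J.AcFree
import Pool.Agent.Lib.MP_d98eb9_al.P.Asm

namespace Pool.Agent.Results.MP_d98eb9_al.Acylindrical

open Pool.Agent.Lib.MP_d98eb9_al Pool.Agent.Lib.MP_1d6a3f_al

/-- Let the `PD_3`-group `G` act without inversions, without a fixed vertex and
`k`-acylindrically on a simplicial tree. Then `G` splits over a `PD_2`-subgroup. -/
theorem result (G : Type) [Group G] (hG : IsPD 3 G) (V : Type) [MulAction G V] (T : SimpleGraph V)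
    (hT : T.IsTree) (hadj : ∀ (g : G) (x y : V), T.Adj x y → T.Adj (g • x) (g • y))
    (hinv : ∀ (g : G) (x y : V), T.Adj x y → ¬ (g • x = y ∧ g • y = x))
    (hfix : ∀ v : V, ∃ g : G, g • v ≠ v)
    (k : ℕ) (hk : ∀ (g : G) (u v : V), k ≤ T.dist u v → g • u = u → g • v = v → g = 1) :
    ∃ S : Subgroup G, IsPD 2 S ∧ SplitsOver S :=
  W.J.ac_free hG (W.s1 hG) ⟨hT, hadj, fun g x y e e1 e2 => hinv g x y e ⟨e1, e2⟩⟩ hfix hk

end Pool.Agent.Results.MP_d98eb9_al.Acylindrical
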