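import Mathlib
import Pool.Agent.Lib.MP_d98eb9_al.Main

namespace Pool.Agent.Results.MP_d98eb9_al.Coherence

open Pool.Agent.Lib.MP_d98eb9_al

/-- Every finitely generated subgroup of a `PD_3`-group whose integral group ring embeds in a
division ring is of type FP. -/
theorem result (G : Type) [Group G] (hG : IsPD 3 G) (C : Subgroup G) (hC : C.FG)
    (D : Type) [DivisionRing D] (ι : MonoidAlgebra ℤ C →+* D) (hι : Function.Injective ι) :
    IsFP C :=
  main hG C hC D ι hι

end Pool.Agent.Results.MP_d98eb9_al.Coherence
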