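import Mathlib
import Pool.Agent.Lib.MP_d98eb9_al.J.Min
import Pool.Agent.Lib.MP_d98eb9_al.P.Asm

namespace Pool.Agent.Results.MP_d98eb9_al.SurfaceEnd

open Pool.Agent.Lib.MP_d98eb9_al Pool.Agent.Lib.MP_1d6a3f_al

/-- Let the `PD_3`-group `G` split over `C`. Suppose that every finitely generated subgroup of `C`
over which `G` splits has a subgroup of finite index that is of type `FP_2`, or has an integral
group ring that embeds in a division ring, or has no analytic zero divisors, or is left orderable,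
or fixes infinitely many cosets of a finitely generated subgroup of `G`.
Then `G` splits over a `PD_2`-subgroup of `C`. -/
theorem result (G : Type) [Group G] (hG : IsPD 3 G) (C : Subgroup G) (hC : SplitsOver C)
    (h : ∀ J : Subgroup G, J ≤ C → J.FG → SplitsOver J → ∃ K : Subgroup G, K ≤ J ∧
      (K.subgroupOf J).FiniteIndex ∧ (W.IsFP2 K ∨ W.Agrarian K ∨ W.AZD K ∨ W.LeftOrd K ∨
        ∃ L : Subgroup G, L.FG ∧ {q : G ⧸ L | ∀ k ∈ K, k • q = q}.Infinite)) :
    ∃ S : Subgroup G, S ≤ C ∧ IsPD 2 S ∧ SplitsOver S :=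
  W.J.split_pd'' hG (W.s1 hG) hC h

end Pool.Agent.Results.MP_d98eb9_al.SurfaceEnd
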