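import Mathlib
import Pool.Agent.Lib.MP_d98eb9_al.J.Min
import Pool.Agent.Lib.MP_d98eb9_al.P.Asm

namespace Pool.Agent.Results.MP_d98eb9_al.VertexFP2

open Pool.Agent.Lib.MP_d98eb9_al Pool.Agent.Lib.MP_1d6a3f_al

/-- Let the `PD_3`-group `G` act minimally and without inversions on a simplicial tree with an edge
`ab`. If a subgroup of type `FP_2` lies between the stabiliser of the edge and the stabiliser of
its endpoint `b`, then `G` splits over a `PD_2`-subgroup. -/
theorem result (G : Type) [Group G] (hG : IsPD 3 G) (V : Type) [MulAction G V] (T : SimpleGraph V)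
    (hT : T.IsTree) (hadj : ∀ (g : G) (x y : V), T.Adj x y → T.Adj (g • x) (g • y))
    (hinv : ∀ (g : G) (x y : V), T.Adj x y → ¬ (g • x = y ∧ g • y = x))
    (hmin : ∀ W : Set V, (∀ (g : G), ∀ v ∈ W, g • v ∈ W) → (T.induce W).Connected → W = Set.univ)
    (a b : V) (hab : T.Adj a b) (A : Subgroup G)
    (h1 : MulAction.stabilizer G a ⊓ MulAction.stabilizer G b ≤ A)
    (h2 : A ≤ MulAction.stabilizer G b) (hA : W.IsFP2 A) :
    ∃ S : Subgroup G, IsPD 2 S ∧ SplitsOver S :=
  W.J.min_vertex hG (W.s1 hG) ⟨hT, hadj, hinv, hmin⟩ hab h1 h2 hA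

end Pool.Agent.Results.MP_d98eb9_al.VertexFP2
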